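import Pool.Agent.Lib.MP_5c0b30_ag.MukaiExt

/-!
# Galois action on the correspondences of a motive

`C` is the category of Chow motives with rational coefficients over a finite Galois extension `L` of
the function field `K` of the parameter space of a family of varieties, with the Tate twists
`X ↦ X⟦n⟧`, and `M` is the motive of the generic member `X_K`, over `L`.
-/

set_option autoImplicit false

open CategoryTheory CategoryTheory.Limits

namespace Pool.Agent.Lib.OrlovHK

open Pool.Agent.Lib.MP_5c0b30_ag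

universe v u w

/-- An action of the group `G` (the Galois group of `L` over `K`) on the groups `Hom(M, M⟦n⟧)` (the
Chow groups of `X_L × X_L`), compatible with the composition, such that

* the conjugates of a cohomologically trivial correspondence are cohomologically trivial;
* for all finite families `r` of invariant cohomologically trivial correspondences
  `r n : M ⟶ M⟦n⟧` (that is, of cohomologically trivial correspondences over `K`), `1 - r` is an
  isomorphism in the orbit category (for instance `r = 0`, if the universal family satisfies the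
  Franchetta property for `X × X`). -/
structure GaloisAction {C : Type u} [Category.{v} C] [Preadditive C] [HasShift C ℤ]
    {W : C → Type w} [∀ X, AddCommGroup (W X)] [∀ X, Module ℚ (W X)] (T : TotalRealization C W)
    (M : C) (G : Type*) [Group G] where
  gal : G → ∀ n : ℤ, (M ⟶ M⟦n⟧) → (M ⟶ M⟦n⟧)
  gal_one : ∀ (n : ℤ) (f : M ⟶ M⟦n⟧), gal 1 n f = f
  gal_mul : ∀ (σ τ : G) (n : ℤ) (f : M ⟶ M⟦n⟧), gal (σ * τ) n f = gal σ n (gal τ n f)
  gal_add : ∀ (σ : G) (n : ℤ) (f g : M ⟶ M⟦n⟧), gal σ n (f + g) = gal σ n f + gal σ n g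
  gal_id : ∀ σ : G, gal σ 0 (ShiftedHom.mk₀ (0 : ℤ) rfl (𝟙 M)) = ShiftedHom.mk₀ (0 : ℤ) rfl (𝟙 M)
  gal_comp : ∀ (σ : G) {a b c : ℤ} (f : M ⟶ M⟦a⟧) (g : M ⟶ M⟦b⟧) (h : b + a = c),
    gal σ c (ShiftedHom.comp f g h) = ShiftedHom.comp (gal σ a f) (gal σ b g) h
  trivial : ∀ (σ : G) (n : ℤ) (f : M ⟶ M⟦n⟧), T.act f = 0 → T.act (gal σ n f) = 0
  radical : ∀ r : ∀ n : ℤ, M ⟶ M⟦n⟧, {n | r n ≠ 0}.Finite → (∀ σ n, gal σ n (r n) = r n) →
    (∀ n, T.act (r n) = 0) → ∃ e : OrbitEquiv M M, ∀ n, e.hom n = famId M n - r n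

/-- `X` is a direct summand of a finite direct sum of twists of `N`. -/
def TwistSummand {C : Type u} [Category.{v} C] [Preadditive C] [HasShift C ℤ] (X N : C) : Prop :=
  ∃ (k : ℕ) (n : Fin k → ℤ) (a : ∀ j, X ⟶ N⟦n j⟧) (b : ∀ j, N⟦n j⟧ ⟶ X), ∑ j, a j ≫ b j = 𝟙 X

end Pool.Agent.Lib.OrlovHK
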