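import Pool.Agent.Lib.OrlovHK.Ring

/-!
# Radical descent in the orbit category
-/

set_option autoImplicit false

open CategoryTheory CategoryTheory.Limits

namespace Pool.Agent.Lib.OrlovHK

open Pool.Agent.Lib.MP_5c0b30_ag

universe v u w

section

variable {C : Type u} [Category.{v} C] [Preadditive C] [HasShift C ℤ]
  {W : C → Type w} [∀ X, AddCommGroup (W X)] [∀ X, Module ℚ (W X)] {T : TotalRealization C W}
  {M : C} {G : Type*} [Group G]

lemma GaloisAction.gal_zero (D : GaloisAction T M G) (σ : G) (n : ℤ) :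
    D.gal σ n (0 : M ⟶ M⟦n⟧) = 0 := by
  have h := D.gal_add σ n 0 0
  rw [add_zero] at h
  exact left_eq_add.1 h

/-- the action as an additive map -/
def GaloisAction.galHom (D : GaloisAction T M G) (σ : G) (n : ℤ) :
    (M ⟶ M⟦n⟧) →+ (M ⟶ M⟦n⟧) where
  toFun := D.gal σ n
  map_zero' := D.gal_zero σ n
  map_add' := D.gal_add σ n

/-- the action on the orbit category -/
noncomputable def GaloisAction.galO (D : GaloisAction T M G) (σ : G) : OrbitHom M M →+ OrbitHom M M :=
  DirectSum.map (fun n => D.galHom σ n)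

lemma GaloisAction.galO_apply (D : GaloisAction T M G) (σ : G) (f : OrbitHom M M) (n : ℤ) :
    (D.galO σ f) n = D.gal σ n (f n) := rfl

lemma GaloisAction.galO_hof (D : GaloisAction T M G) (σ : G) (n : ℤ) (f : M ⟶ M⟦n⟧) :
    D.galO σ (hof n f) = hof n (D.gal σ n f) :=
  DirectSum.map_of (fun n => D.galHom σ n) n f

variable [∀ n : ℤ, (shiftFunctor C n).Additive]

lemma GaloisAction.galO_comp (D : GaloisAction T M G) (σ : G) (f g : OrbitHom M M) :
    D.galO σ (orbitComp f g) = orbitComp (D.galO σ f) (D.galO σ g) := by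
  induction f using DirectSum.induction_on with
  | zero => rw [zero_orbitComp, map_zero, zero_orbitComp]
  | add f₁ f₂ h₁ h₂ => rw [add_orbitComp, map_add, map_add, add_orbitComp, h₁, h₂]
  | of a f =>
    induction g using DirectSum.induction_on with
    | zero => rw [orbitComp_zero, map_zero, orbitComp_zero]
    | add g₁ g₂ h₁ h₂ => rw [orbitComp_add, map_add, map_add, orbitComp_add, h₁, h₂]
    | of b g =>
      change D.galO σ (orbitComp (hof a f) (hof b g)) =
        orbitComp (D.galO σ (hof a f)) (D.galO σ (hof b g))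
      rw [orbitComp_hof, D.galO_hof, D.galO_hof, D.galO_hof, orbitComp_hof, D.gal_comp]

/-- the action on the ring of the correspondences of all degrees -/
@[reducible]
noncomputable def GaloisAction.mulAction (D : GaloisAction T M G) :
    MulSemiringAction G (OEnd M) where
  smul σ f := D.galO σ f
  one_smul f := orbitHom_ext (fun n => D.gal_one n _)
  mul_smul σ τ f := orbitHom_ext (fun n => D.gal_mul σ τ n _)
  smul_zero σ := map_zero (D.galO σ)
  smul_add σ f g := map_add (D.galO σ) f g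
  smul_one σ := by
    change D.galO σ (hof 0 (ShiftedHom.mk₀ 0 rfl (𝟙 M))) = hof 0 (ShiftedHom.mk₀ 0 rfl (𝟙 M))
    rw [D.galO_hof, D.gal_id]
  smul_mul σ f g := D.galO_comp σ f g

variable [Linear ℚ C]

/-- all components act as zero on the cohomology -/
def Tr (T : TotalRealization C W) {X Y : C} (f : OrbitHom X Y) : Prop := ∀ n : ℤ, T.act (f n) = 0

omit [Linear ℚ C] in
lemma Tr.comp_right {X Y Z : C} {f : OrbitHom X Y} (hf : Tr T f) (g : OrbitHom Y Z) :
    Tr T (orbitComp f g) := by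
  classical
  intro n
  rw [orbitComp_apply f g n (DFinsupp.support f)
    (fun m hm => DFinsupp.notMem_support_iff.1 hm), T.act_sum]
  refine Finset.sum_eq_zero (fun m _ => ?_)
  rw [T.act_comp, hf, LinearMap.comp_zero]

omit [Linear ℚ C] in
lemma Tr.comp_left {X Y Z : C} {g : OrbitHom Y Z} (hg : Tr T g) (f : OrbitHom X Y) :
    Tr T (orbitComp f g) := by
  classical
  intro n
  rw [orbitComp_apply f g n (DFinsupp.support f)
    (fun m hm => DFinsupp.notMem_support_iff.1 hm), T.act_sum]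
  refine Finset.sum_eq_zero (fun m _ => ?_)
  rw [T.act_comp, hg, LinearMap.zero_comp]

/-- the components -/
noncomputable def app {M : C} (f : OrbitHom M M) (n : ℤ) : M ⟶ M⟦n⟧ := f n

/-- the left ideal of the cohomologically trivial correspondences -/
def trivIdeal (T : TotalRealization C W) (M : C) : Ideal (OEnd M) where
  carrier := {f | ∀ n : ℤ, T.act (app f n) = 0}
  add_mem' := by
    intro f g hf hg n
    have h : app (f + g) n = app f n + app g n := rfl
    rw [h, T.act_add, hf n, hg n, add_zero]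
  zero_mem' := by
    intro n
    have h : app (0 : OEnd M) n = 0 := rfl
    rw [h]
    exact T.act_zero
  smul_mem' := by
    intro c f hf
    exact Tr.comp_left (X := M) (Y := M) (Z := M) hf c

omit [Linear ℚ C] in
lemma mem_trivIdeal {f : OEnd M} : f ∈ trivIdeal T M ↔ ∀ n : ℤ, T.act (app f n) = 0 := Iff.rfl

lemma isUnit_natCast (M : C) {k : ℕ} (hk : k ≠ 0) : IsUnit ((k : ℕ) : OEnd M) := by
  have hk' : (k : ℚ) ≠ 0 := by exact_mod_cast hk
  have h0 : ∀ m : ℕ, ((m : ℕ) : OEnd M) = deg0 ((m : ℚ) • (𝟙 M)) := by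
    intro m
    induction m with
    | zero =>
      rw [Nat.cast_zero, Nat.cast_zero, zero_smul, deg0_zero]
      rfl
    | succ m ih =>
      rw [Nat.cast_succ, Nat.cast_succ, add_smul, one_smul, deg0_add, ih]
      rfl
  let v : OEnd M := (deg0 ((k : ℚ)⁻¹ • (𝟙 M)) : OrbitHom M M)
  have h1 : ((k : ℕ) : OEnd M) * v = 1 := by
    rw [h0]
    change orbitComp (deg0 _) (deg0 _) = orbitId M
    rw [← deg0_comp, Linear.smul_comp, Linear.comp_smul, Category.comp_id, smul_smul,
      mul_inv_cancel₀ hk', one_smul]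
    rfl
  have h2 : v * ((k : ℕ) : OEnd M) = 1 := by
    rw [h0]
    change orbitComp (deg0 _) (deg0 _) = orbitId M
    rw [← deg0_comp, Linear.smul_comp, Linear.comp_smul, Category.comp_id, smul_smul,
      inv_mul_cancel₀ hk', one_smul]
    rfl
  exact ⟨⟨_, v, h1, h2⟩, rfl⟩

/-- **radical descent**: the cohomologically trivial correspondences of all degrees are radical -/
theorem GaloisAction.isUnit_one_sub (D : GaloisAction T M G) [Finite G] {r : OEnd M}
    (hr : r ∈ trivIdeal T M) : IsUnit (1 - r) := by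
  classical
  let _ := D.mulAction
  refine OrlovCI.isUnit_one_sub (G := G) (R := trivIdeal T M)
    (isUnit_natCast M Nat.card_pos.ne') ?_ ?_ hr
  · intro σ f hf n
    exact D.trivial σ n _ (hf n)
  · intro f hf hG
    obtain ⟨e, he⟩ := D.radical (fun n => app f n)
      ((DFinsupp.support (f : OrbitHom M M)).finite_toSet.subset
        (fun n hn => DFinsupp.mem_support_iff.2 hn))
      (fun σ n => congrArg (fun g : OEnd M => app g n) (hG σ)) hf
    have h1 : (1 - f : OEnd M) = e.toOrbitIso.hom := by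
      refine orbitHom_ext (fun n => ?_)
      rw [e.toOrbitIso_hom, he, famId_eq]
      rfl
    rw [h1]
    exact ⟨⟨e.toOrbitIso.hom, e.toOrbitIso.inv, e.toOrbitIso.hom_inv_id,
      e.toOrbitIso.inv_hom_id⟩, rfl⟩

omit [Linear ℚ C] [∀ n : ℤ, (shiftFunctor C n).Additive] in
lemma deg0_apply_zero {X Y : C} (a : X ⟶ Y) : (deg0 a : OrbitHom X Y) 0 = ShiftedHom.mk₀ 0 rfl a :=
  DirectSum.of_eq_same _ _

omit [Linear ℚ C] [∀ n : ℤ, (shiftFunctor C n).Additive] in
lemma deg0_apply_ne {X Y : C} (a : X ⟶ Y) {n : ℤ} (hn : n ≠ 0) : (deg0 a : OrbitHom X Y) n = 0 :=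
  DirectSum.of_eq_of_ne (β := fun n : ℤ => (X ⟶ Y⟦n⟧)) 0 n _ hn

omit [Linear ℚ C] [∀ n : ℤ, (shiftFunctor C n).Additive] in
lemma Tr.deg0 {X Y : C} {a : X ⟶ Y} (ha : T.act (ShiftedHom.mk₀ (0 : ℤ) rfl a) = 0) :
    Tr T (deg0 a) := by
  intro n
  by_cases hn : n = 0
  · subst hn
    rw [deg0_apply_zero, ha]
  · rw [deg0_apply_ne a hn]
    exact T.act_zero

omit [Linear ℚ C] in
/-- The component of degree `0` of a right inverse. -/
lemma degreeZero_right_inv {X : C} (a : X ⟶ X) (v : OrbitHom X X)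
    (h : orbitComp (MP_5c0b30_ag.deg0 a) v = orbitId X) :
    a ≫ (ShiftedHom.homEquiv (0 : ℤ) rfl).symm (v 0) = 𝟙 X := by
  set b : X ⟶ X := (ShiftedHom.homEquiv (0 : ℤ) rfl).symm (v 0) with hb
  have hb' : v 0 = ShiftedHom.mk₀ 0 rfl b :=
    ((ShiftedHom.homEquiv (0 : ℤ) rfl).apply_symm_apply (v 0)).symm
  have h1 := orbitComp_apply (MP_5c0b30_ag.deg0 a) v 0 {0}
    (fun n hn => deg0_apply_ne a (fun h0 => hn (by rw [h0]; exact Finset.mem_singleton_self _)))
  rw [Finset.sum_singleton, h] at h1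
  have h2 : (orbitId X : OrbitHom X X) 0 = ShiftedHom.mk₀ 0 rfl (𝟙 X) := DirectSum.of_eq_same _ _
  have h3 : ∀ (m : ℤ) (hm : m + 0 = 0), ShiftedHom.comp ((MP_5c0b30_ag.deg0 a) 0) (v m) hm =
      ShiftedHom.mk₀ 0 rfl (a ≫ b) := by
    intro m hm
    obtain rfl : m = 0 := by omega
    rw [deg0_apply_zero, hb', ShiftedHom.mk₀_comp_mk₀]
  rw [h2, h3] at h1
  exact ((ShiftedHom.homEquiv (X := X) (Y := X) (0 : ℤ) rfl).injective h1).symm

end

end Pool.Agent.Lib.OrlovHK
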