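import Pool.Agent.Lib.OrlovHK.Descent

/-!
# The radical of the orbit category and summands of sums of twists
-/

set_option autoImplicit false

open CategoryTheory CategoryTheory.Limits

namespace Pool.Agent.Lib.OrlovHK

open Pool.Agent.Lib.MP_5c0b30_ag

universe v u w

variable {C : Type u} [Category.{v} C] [Preadditive C] [HasShift C ℤ]
  [∀ n : ℤ, (shiftFunctor C n).Additive]

/-- `a` is invertible in the orbit category -/
def OInv {X : C} (a : OrbitHom X X) : Prop :=
  ∃ u : OrbitHom X X, orbitComp a u = orbitId X ∧ orbitComp u a = orbitId X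

/-- the radical of the orbit category -/
def IsRad {X Y : C} (f : OrbitHom X Y) : Prop :=
  ∀ g : OrbitHom Y X, OInv (orbitId X - orbitComp f g)

lemma orbitComp_sub' {X Y Z : C} (f : OrbitHom X Y) (g₁ g₂ : OrbitHom Y Z) :
    orbitComp f (g₁ - g₂) = orbitComp f g₁ - orbitComp f g₂ := by
  simp [orbitComp]

lemma sub_orbitComp' {X Y Z : C} (f₁ f₂ : OrbitHom X Y) (g : OrbitHom Y Z) :
    orbitComp (f₁ - f₂) g = orbitComp f₁ g - orbitComp f₂ g := by
  simp [orbitComp]

/-- `1 - f g` is invertible if `1 - g f` is -/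
lemma OInv.swap {X Y : C} {f : OrbitHom X Y} {g : OrbitHom Y X}
    (h : OInv (orbitId Y - orbitComp g f)) : OInv (orbitId X - orbitComp f g) := by
  obtain ⟨u, h1, h2⟩ := h
  rw [sub_orbitComp', orbitId_comp] at h1
  rw [orbitComp_sub', orbitComp_id] at h2
  refine ⟨orbitId X + orbitComp f (orbitComp u g), ?_, ?_⟩
  · rw [sub_orbitComp', orbitId_comp, orbitComp_add, orbitComp_id]
    have h3 : orbitComp (orbitComp f g) (orbitComp f (orbitComp u g)) =
        orbitComp f (orbitComp (orbitComp (orbitComp g f) u) g) := by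
      simp only [orbitComp_assoc]
    have h4 : orbitComp (orbitComp g f) u = u - orbitId Y := by
      rw [← h1]; abel
    rw [h3, h4, sub_orbitComp', orbitId_comp, orbitComp_sub']
    abel
  · rw [orbitComp_sub', orbitComp_id, add_orbitComp, orbitId_comp]
    have h3 : orbitComp (orbitComp f (orbitComp u g)) (orbitComp f g) =
        orbitComp f (orbitComp (orbitComp u (orbitComp g f)) g) := by
      simp only [orbitComp_assoc]
    have h4 : orbitComp u (orbitComp g f) = u - orbitId Y := by
      rw [← h2]; abel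
    rw [h3, h4, sub_orbitComp', orbitId_comp, orbitComp_sub']
    abel

lemma OInv.comp {X : C} {a b : OrbitHom X X} (ha : OInv a) (hb : OInv b) :
    OInv (orbitComp a b) := by
  obtain ⟨u, h1, h2⟩ := ha
  obtain ⟨v, h3, h4⟩ := hb
  refine ⟨orbitComp v u, ?_, ?_⟩
  · rw [orbitComp_assoc, ← orbitComp_assoc b, h3, orbitId_comp, h1]
  · rw [orbitComp_assoc, ← orbitComp_assoc u, h2, orbitId_comp, h4]

lemma IsRad.comp_right {X Y Z : C} {f : OrbitHom X Y} (hf : IsRad f) (h : OrbitHom Y Z) :
    IsRad (orbitComp f h) := by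
  intro g
  rw [orbitComp_assoc]
  exact hf _

lemma IsRad.comp_left {X Y Z : C} {f : OrbitHom Y Z} (hf : IsRad f) (h : OrbitHom X Y) :
    IsRad (orbitComp h f) := by
  intro g
  rw [orbitComp_assoc]
  refine OInv.swap ?_
  rw [orbitComp_assoc]
  exact hf _

lemma IsRad.zero {X Y : C} : IsRad (0 : OrbitHom X Y) := by
  intro g
  rw [zero_orbitComp, sub_zero]
  exact ⟨orbitId X, orbitId_comp _, orbitId_comp _⟩

lemma IsRad.add {X Y : C} {f f' : OrbitHom X Y} (hf : IsRad f) (hf' : IsRad f') :
    IsRad (f + f') := by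
  intro g
  obtain ⟨u, h1, h2⟩ := hf g
  have h3 : OInv (orbitId X - orbitComp f g) := ⟨u, h1, h2⟩
  have h4 := (hf'.comp_left u) g
  have h5 := h3.comp h4
  rw [orbitComp_sub', orbitComp_id, orbitComp_assoc u, ← orbitComp_assoc _ u, h1, orbitId_comp] at h5
  rw [add_orbitComp, ← sub_sub]
  exact h5

lemma IsRad.sum {X Y : C} {ι : Type*} (s : Finset ι) (f : ι → OrbitHom X Y)
    (h : ∀ i ∈ s, IsRad (f i)) : IsRad (∑ i ∈ s, f i) := by
  classical
  induction s using Finset.induction_on with
  | empty => rw [Finset.sum_empty]; exact IsRad.zero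
  | insert a s ha ih =>
    rw [Finset.sum_insert ha]
    exact (h a (Finset.mem_insert_self a s)).add (ih fun i hi => h i (Finset.mem_insert_of_mem hi))

end Pool.Agent.Lib.OrlovHK
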