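import Pool.Agent.Lib.MP_5c0b30_ag.DefsConv
import Pool.Agent.Lib.MP_5c0b30_ag.HyperKahler
import Pool.Agent.Lib.OrlovCI.Maschke
import Pool.Agent.Lib.OrlovHK.Defs

/-!
# The ring of the correspondences of all degrees
-/

set_option autoImplicit false

open CategoryTheory CategoryTheory.Limits

namespace Pool.Agent.Lib.OrlovHK

open Pool.Agent.Lib.MP_5c0b30_ag

universe v u w

variable {C : Type u} [Category.{v} C] [Preadditive C] [HasShift C ℤ]

/-- The endomorphisms of `M` in the orbit category. -/
def OEnd (M : C) : Type v := OrbitHom M M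

noncomputable instance (M : C) : AddCommGroup (OEnd M) := inferInstanceAs (AddCommGroup (OrbitHom M M))

variable [∀ n : ℤ, (shiftFunctor C n).Additive]

noncomputable instance (M : C) : Ring (OEnd M) :=
  { (inferInstance : AddCommGroup (OEnd M)) with
    mul := fun f g => orbitComp (X := M) (Y := M) (Z := M) f g
    one := orbitId M
    mul_assoc := fun f g h => orbitComp_assoc (X := M) (Y := M) (Z := M) (W := M) f g h
    one_mul := fun f => orbitId_comp (X := M) (Y := M) f
    mul_one := fun f => orbitComp_id (X := M) (Y := M) f
    left_distrib := fun f g h => orbitComp_add (X := M) (Y := M) (Z := M) f g h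
    right_distrib := fun f g h => add_orbitComp (X := M) (Y := M) (Z := M) f g h
    zero_mul := fun f => zero_orbitComp (X := M) (Y := M) (Z := M) f
    mul_zero := fun f => orbitComp_zero (X := M) (Y := M) (Z := M) f }

lemma oend_mul (M : C) (f g : OEnd M) :
    f * g = (orbitComp (X := M) (Y := M) (Z := M) f g : OrbitHom M M) := rfl

lemma oend_one (M : C) : (1 : OEnd M) = (orbitId M : OrbitHom M M) := rfl

end Pool.Agent.Lib.OrlovHK
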