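import Pool.Agent.Lib.OrlovHK.Rad

/-!
# Cohomologically trivial endomorphisms of summands of sums of twists
-/

set_option autoImplicit false

open CategoryTheory CategoryTheory.Limits

namespace Pool.Agent.Lib.OrlovHK

open Pool.Agent.Lib.MP_5c0b30_ag

universe v u w

section

variable {C : Type u} [Category.{v} C] [Preadditive C] [HasShift C ℤ]
  [∀ n : ℤ, (shiftFunctor C n).Additive]

/-- A direct summand of a sum of twists of `N` is a summand of a sum of copies of `N` in the orbit
category. -/
lemma TwistSummand.exists_orbit {X N : C} (h : TwistSummand X N) :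
    ∃ (k : ℕ) (a : Fin k → OrbitHom X N) (b : Fin k → OrbitHom N X),
      ∑ j, orbitComp (a j) (b j) = orbitId X := by
  obtain ⟨k, n, a, b, hab⟩ := h
  refine ⟨k, fun j => orbitComp (deg0 (a j)) (OrbitIso.shiftIso N (n j)).hom,
    fun j => orbitComp (OrbitIso.shiftIso N (n j)).inv (deg0 (b j)), ?_⟩
  have h1 : ∀ j, orbitComp (orbitComp (deg0 (a j)) (OrbitIso.shiftIso N (n j)).hom)
      (orbitComp (OrbitIso.shiftIso N (n j)).inv (deg0 (b j))) = deg0 (a j ≫ b j) := by
    intro j
    rw [orbitComp_assoc, ← orbitComp_assoc (OrbitIso.shiftIso N (n j)).hom,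
      (OrbitIso.shiftIso N (n j)).hom_inv_id, orbitId_comp, deg0_comp]
  simp only [h1]
  have h2 : ∀ s : Finset (Fin k), ∑ j ∈ s, (deg0 (a j ≫ b j) : OrbitHom X X) =
      deg0 (∑ j ∈ s, a j ≫ b j) := by
    classical
    intro s
    induction s using Finset.induction_on with
    | empty => rw [Finset.sum_empty, Finset.sum_empty, deg0_zero]
    | insert i s hi ih => rw [Finset.sum_insert hi, Finset.sum_insert hi, deg0_add, ih]
  rw [h2, hab, deg0_id]

/-- Objects isomorphic in the orbit category to a summand of a sum of copies of `N`. -/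
lemma exists_orbit_of_iso {X Y N : C} (e : OrbitIso X Y)
    (h : ∃ (k : ℕ) (a : Fin k → OrbitHom X N) (b : Fin k → OrbitHom N X),
      ∑ j, orbitComp (a j) (b j) = orbitId X) :
    ∃ (k : ℕ) (a : Fin k → OrbitHom Y N) (b : Fin k → OrbitHom N Y),
      ∑ j, orbitComp (a j) (b j) = orbitId Y := by
  obtain ⟨k, a, b, hab⟩ := h
  refine ⟨k, fun j => orbitComp e.inv (a j), fun j => orbitComp (b j) e.hom, ?_⟩
  have h1 : ∀ j, orbitComp (orbitComp e.inv (a j)) (orbitComp (b j) e.hom) =
      orbitComp (orbitComp e.inv (orbitComp (a j) (b j))) e.hom := by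
    intro j
    simp only [orbitComp_assoc]
  have h2 : ∀ s : Finset (Fin k), ∑ j ∈ s, orbitComp (orbitComp e.inv (orbitComp (a j) (b j)))
      e.hom = orbitComp (orbitComp e.inv (∑ j ∈ s, orbitComp (a j) (b j))) e.hom := by
    classical
    intro s
    induction s using Finset.induction_on with
    | empty => rw [Finset.sum_empty, Finset.sum_empty, orbitComp_zero, zero_orbitComp]
    | insert i s hi ih =>
      rw [Finset.sum_insert hi, Finset.sum_insert hi, orbitComp_add, add_orbitComp, ih]
  simp only [h1]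
  rw [h2, hab, orbitComp_id, e.inv_hom_id]

lemma orbitComp_sum' {X Y Z : C} {ι : Type*} (s : Finset ι) (f : OrbitHom X Y)
    (g : ι → OrbitHom Y Z) : orbitComp f (∑ i ∈ s, g i) = ∑ i ∈ s, orbitComp f (g i) := by
  simp [orbitComp]

lemma sum_orbitComp' {X Y Z : C} {ι : Type*} (s : Finset ι) (f : ι → OrbitHom X Y)
    (g : OrbitHom Y Z) : orbitComp (∑ i ∈ s, f i) g = ∑ i ∈ s, orbitComp (f i) g := by
  simp [orbitComp]

variable {W : C → Type w} [∀ X, AddCommGroup (W X)] [∀ X, Module ℚ (W X)]
  {T : TotalRealization C W}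

lemma isRad_of_orbit_summand {X N : C} (hN : ∀ f : OrbitHom N N, Tr T f → IsRad f)
    (h : ∃ (k : ℕ) (a : Fin k → OrbitHom X N) (b : Fin k → OrbitHom N X),
      ∑ j, orbitComp (a j) (b j) = orbitId X) {f : OrbitHom X X} (hf : Tr T f) : IsRad f := by
  obtain ⟨k, a, b, hab⟩ := h
  have h1 : f = ∑ j, ∑ l, orbitComp (a j) (orbitComp (orbitComp (orbitComp (b j) f) (a l)) (b l)) := by
    calc f = orbitComp (orbitComp (∑ j, orbitComp (a j) (b j)) f)
          (∑ l, orbitComp (a l) (b l)) := by rw [hab, orbitId_comp, orbitComp_id]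
      _ = _ := by
        rw [sum_orbitComp', sum_orbitComp']
        refine Finset.sum_congr rfl (fun j _ => ?_)
        rw [orbitComp_sum']
        refine Finset.sum_congr rfl (fun l _ => ?_)
        simp only [orbitComp_assoc]
  rw [h1]
  refine IsRad.sum _ _ (fun j _ => IsRad.sum _ _ (fun l _ => ?_))
  exact ((hN _ ((hf.comp_left (b j)).comp_right (a l))).comp_right (b l)).comp_left (a j)

/-- The component of degree `0`. -/
lemma trivialRadical_of_isRad {X : C} (h : ∀ f : OrbitHom X X, Tr T f → IsRad f) :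
    T.TrivialRadical X := by
  intro f hf
  rw [← Ideal.jacobson_bot, Ideal.mem_jacobson_iff]
  intro y
  obtain ⟨u, hu, -⟩ := h _ (Tr.deg0 hf) (- deg0 y)
  have h1 : orbitId X - orbitComp (deg0 f) (-deg0 y) = deg0 (𝟙 X + f ≫ y) := by
    have h2 : orbitComp (deg0 f) (-deg0 y) = - orbitComp (deg0 f) (deg0 y) := by
      simp [orbitComp]
    rw [h2, sub_neg_eq_add, deg0_add, deg0_comp, deg0_id]
  rw [h1] at hu
  refine ⟨(ShiftedHom.homEquiv (0 : ℤ) rfl).symm (u 0), ?_⟩
  have h4 := degreeZero_right_inv _ _ hu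
  rw [Preadditive.add_comp, Category.id_comp, Category.assoc] at h4
  rw [Ideal.mem_bot, sub_eq_zero, add_comm]
  exact h4

variable [Linear ℚ C] {N : C} {G : Type*} [Group G] [Finite G]

lemma GaloisAction.isRad (D : GaloisAction T N G) {f : OrbitHom N N} (hf : Tr T f) : IsRad f := by
  intro g
  have h1 : (orbitComp (X := N) (Y := N) (Z := N) f g : OEnd N) ∈ trivIdeal T N :=
    hf.comp_right g
  obtain ⟨⟨w, u, hwu, huw⟩, hw⟩ := D.isUnit_one_sub h1
  dsimp only at hw
  rw [hw] at hwu huw
  exact ⟨u, hwu, huw⟩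

/-- Radical descent for direct summands of sums of twists. -/
theorem GaloisAction.trivialRadical (D : GaloisAction T N G) {X : C} (h : TwistSummand X N) :
    T.TrivialRadical X :=
  trivialRadical_of_isRad (fun _ hf => isRad_of_orbit_summand (fun _ => D.isRad) h.exists_orbit hf)

/-- Radical descent for objects isomorphic to direct summands of sums of twists in the orbit
category. -/
theorem GaloisAction.trivialRadical' (D : GaloisAction T N G) {X Y : C} (h : TwistSummand X N)
    (e : OrbitIso X Y) : T.TrivialRadical Y :=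
  trivialRadical_of_isRad (fun _ hf => isRad_of_orbit_summand (fun _ => D.isRad)
    (exists_orbit_of_iso e h.exists_orbit) hf)

end

end Pool.Agent.Lib.OrlovHK
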